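import Pool.Agent.Helper11.LE.Goals2
import Pool.Agent.Helper96.RD.NFI

/-!
# Project LE (MP_fc6b1e_nt), packet LE-FRE: primes of degree 1
-/

set_option autoImplicit false

namespace Pool.Agent.Helper51.LE

open NumberField Module IsDedekindDomain Pool.Agent.Helper51.RP

/-- Packet LE-FRE. -/
theorem l_fre : Pool.Agent.Helper11.LE.L_FRE := by
  intro K K₁ _ _ _ _ _ _
  obtain ⟨R, hR, hfree⟩ := Pool.Agent.Helper96.RD.free_of_prime (K := K) (K₁ := K₁)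
  refine ⟨R, hR, fun Q hQ hp => ⟨hfree Q hQ hp, fun q hq => ?_⟩⟩
  have hover : Q.asIdeal.LiesOver q.asIdeal := ⟨hq.symm⟩
  have hQm := Q.isMaximal
  have hqm := q.isMaximal
  have h1 := Ideal.relNorm_eq_pow_of_isMaximal (R := 𝓞 K) Q.asIdeal q.asIdeal
  have h2 : Ideal.absNorm (Ideal.relNorm (𝓞 K) Q.asIdeal) = Ideal.absNorm Q.asIdeal :=
    Ideal.absNorm_relNorm (R := 𝓞 K) (S := 𝓞 K₁) Q.asIdeal
  rw [h1, map_pow] at h2
  have h3 : Q.asIdeal.inertiaDeg (𝓞 K) = 1 := by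
    rw [← h2] at hp
    exact Nat.Prime.eq_one_of_pow hp
  rw [h1, h3, pow_one]

end Pool.Agent.Helper51.LE
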